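import Pool.Agent.Helper53.AE.Defs
import Pool.Agent.Helper53.AE.GoalsA
import Pool.Agent.Helper53.AE.GoalsC

set_option autoImplicit false

open scoped ComplexOrder Topology
open Filter TopologicalSpace

namespace Pool.Agent.Helper43.AE.GAF

open Pool.Agent.Helper53.AE

variable {C M : Type} [CStarAlgebra C] [CStarAlgebra M]

/-- The split extension. -/
def GG (D : NonUnitalStarSubalgebra ℂ M) (hD : Idl D) (σ : C →⋆ₐ[ℂ] M) :
    StarSubalgebra ℂ (M × C) where
  carrier := {x | x.1 - σ x.2 ∈ D}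
  mul_mem' := by
    intro x y hx hy
    show x.1 * y.1 - σ (x.2 * y.2) ∈ D
    have h1 : x.1 * y.1 - σ (x.2 * y.2) = (x.1 - σ x.2) * y.1 + σ x.2 * (y.1 - σ y.2) := by
      rw [map_mul, sub_mul, mul_sub]; abel
    rw [h1]
    exact add_mem (hD.2 _ _ hx).2 (hD.2 _ _ hy).1
  one_mem' := by
    show (1 : M) - σ (1 : C) ∈ D
    rw [map_one, sub_self]
    exact zero_mem D
  add_mem' := by
    intro x y hx hy
    show (x.1 + y.1) - σ (x.2 + y.2) ∈ D
    have h1 : (x.1 + y.1) - σ (x.2 + y.2) = (x.1 - σ x.2) + (y.1 - σ y.2) := by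
      rw [map_add]; abel
    rw [h1]
    exact add_mem hx hy
  zero_mem' := by
    show (0 : M) - σ (0 : C) ∈ D
    rw [map_zero, sub_self]
    exact zero_mem D
  algebraMap_mem' := by
    intro r
    show algebraMap ℂ M r - σ (algebraMap ℂ C r) ∈ D
    rw [AlgHomClass.commutes, sub_self]
    exact zero_mem D
  star_mem' := by
    intro x hx
    show star x.1 - σ (star x.2) ∈ D
    rw [map_star, ← star_sub]
    exact star_mem hx

theorem mem_GG {D : NonUnitalStarSubalgebra ℂ M} {hD : Idl D} {σ : C →⋆ₐ[ℂ] M} (x : M × C) :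
    x ∈ GG D hD σ ↔ x.1 - σ x.2 ∈ D := Iff.rfl

theorem norm_map_le (σ : C →⋆ₐ[ℂ] M) (c : C) : ‖σ c‖ ≤ ‖c‖ :=
  NonUnitalStarAlgHom.norm_apply_le σ c

theorem cont (σ : C →⋆ₐ[ℂ] M) : Continuous σ :=
  AddMonoidHomClass.continuous_of_bound σ 1 (fun x => by
    rw [one_mul]; exact norm_map_le σ x)

theorem closed_GG (D : NonUnitalStarSubalgebra ℂ M) (hD : Idl D) (σ : C →⋆ₐ[ℂ] M) :
    IsClosed (GG D hD σ : Set (M × C)) := by
  have h1 : Continuous (fun x : M × C => x.1 - σ x.2) :=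
    continuous_fst.sub ((cont σ).comp continuous_snd)
  exact hD.1.preimage h1

theorem sep_GG (D : NonUnitalStarSubalgebra ℂ M) (hD : Idl D) (σ : C →⋆ₐ[ℂ] M)
    (hs : IsSeparable (D : Set M)) (hC : SeparableSpace C) :
    IsSeparable (GG D hD σ : Set (M × C)) := by
  have h1 : IsSeparable ((D : Set M) ×ˢ (Set.univ : Set C)) :=
    hs.prod (isSeparable_univ_iff.2 hC)
  have h2 : Continuous (fun x : M × C => (x.1 + σ x.2, x.2)) :=
    (continuous_fst.add ((cont σ).comp continuous_snd)).prodMk continuous_snd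
  refine (h1.image h2).mono ?_
  rintro ⟨m, c⟩ hx
  refine ⟨(m - σ c, c), ⟨hx, trivial⟩, ?_⟩
  simp

/-- The finite-dimensional subalgebra. -/
def HH (D : NonUnitalStarSubalgebra ℂ M) (hD : Idl D) (σ : C →⋆ₐ[ℂ] M)
    (F0 : StarSubalgebra ℂ C) (F : NonUnitalStarSubalgebra ℂ M) (Q : M) (hQF : Q ∈ F)
    (hQ : Pj Q) (hQf : ∀ f ∈ F, Q * f = f ∧ f * Q = f)
    (hc : ∀ c ∈ F0, σ c * Q = Q * σ c) : StarSubalgebra ℂ (GG D hD σ) where
  carrier := {g | (g : M × C).2 ∈ F0 ∧ (g : M × C).1 - σ (g : M × C).2 * (1 - Q) ∈ F}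
  mul_mem' := by
    rintro x y ⟨hx1, hx2⟩ ⟨hy1, hy2⟩
    refine ⟨mul_mem hx1 hy1, ?_⟩
    show (x : M × C).1 * (y : M × C).1 - σ ((x : M × C).2 * (y : M × C).2) * (1 - Q) ∈ F
    obtain ⟨hz1, hz2⟩ := hQf _ hx2
    obtain ⟨hw1, hw2⟩ := hQf _ hy2
    have hcy := hc _ hy1
    generalize hz : (x : M × C).1 - σ (x : M × C).2 * (1 - Q) = z at *
    generalize hw : (y : M × C).1 - σ (y : M × C).2 * (1 - Q) = w at *
    generalize hs : σ (x : M × C).2 = s at *
    generalize hu : σ (y : M × C).2 = u at *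
    have e1 : (x : M × C).1 = s * (1 - Q) + z := by rw [← hz]; abel
    have e2 : (y : M × C).1 = u * (1 - Q) + w := by rw [← hw]; abel
    have hQQ := hQ.2
    rw [map_mul, hs, hu, e1, e2]
    have a1 : (1 - Q) * w = 0 := by rw [sub_mul, one_mul, hw1, sub_self]
    have a2 : z * (u * (1 - Q)) = 0 := by
      rw [← hz2]
      calc z * Q * (u * (1 - Q)) = z * (Q * u) * (1 - Q) := by noncomm_ring
        _ = z * (u * Q) * (1 - Q) := by rw [hcy]
        _ = z * u * (Q - Q * Q) := by noncomm_ring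
        _ = 0 := by rw [hQQ, sub_self, mul_zero]
    have a3 : (1 - Q) * (u * (1 - Q)) = u * (1 - Q) := by
      calc (1 - Q) * (u * (1 - Q)) = u * (1 - Q) - (Q * u) * (1 - Q) := by noncomm_ring
        _ = u * (1 - Q) - (u * Q) * (1 - Q) := by rw [hcy]
        _ = u * (1 - Q) - u * (Q - Q * Q) := by noncomm_ring
        _ = u * (1 - Q) := by rw [hQQ, sub_self, mul_zero, sub_zero]
    have e3 : (s * (1 - Q) + z) * (u * (1 - Q) + w) - s * u * (1 - Q) = z * w := by
      calc (s * (1 - Q) + z) * (u * (1 - Q) + w) - s * u * (1 - Q)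
          = s * ((1 - Q) * (u * (1 - Q))) + s * ((1 - Q) * w) + z * (u * (1 - Q)) + z * w -
            s * (u * (1 - Q)) := by noncomm_ring
        _ = z * w := by rw [a1, a2, a3, mul_zero]; abel
    rw [e3]
    exact mul_mem hx2 hy2
  one_mem' := by
    refine ⟨one_mem F0, ?_⟩
    show (1 : M) - σ (1 : C) * (1 - Q) ∈ F
    have : (1 : M) - σ (1 : C) * (1 - Q) = Q := by rw [map_one]; noncomm_ring
    rw [this]
    exact hQF
  add_mem' := by
    rintro x y ⟨hx1, hx2⟩ ⟨hy1, hy2⟩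
    refine ⟨add_mem hx1 hy1, ?_⟩
    show ((x : M × C).1 + (y : M × C).1) - σ ((x : M × C).2 + (y : M × C).2) * (1 - Q) ∈ F
    have h1 := add_mem hx2 hy2
    have h2 : ((x : M × C).1 + (y : M × C).1) - σ ((x : M × C).2 + (y : M × C).2) * (1 - Q) =
        ((x : M × C).1 - σ (x : M × C).2 * (1 - Q)) +
          ((y : M × C).1 - σ (y : M × C).2 * (1 - Q)) := by
      rw [map_add, add_mul]; abel
    rw [h2]
    exact h1
  zero_mem' := by
    refine ⟨zero_mem F0, ?_⟩
    show (0 : M) - σ (0 : C) * (1 - Q) ∈ F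
    have : (0 : M) - σ (0 : C) * (1 - Q) = 0 := by rw [map_zero]; noncomm_ring
    rw [this]
    exact zero_mem F
  algebraMap_mem' := by
    intro r
    refine ⟨F0.algebraMap_mem r, ?_⟩
    show algebraMap ℂ M r - σ (algebraMap ℂ C r) * (1 - Q) ∈ F
    have : algebraMap ℂ M r - σ (algebraMap ℂ C r) * (1 - Q) = r • Q := by
      rw [AlgHomClass.commutes, Algebra.algebraMap_eq_smul_one]
      simp only [smul_mul_assoc, one_mul, smul_sub]
      abel
    rw [this]
    exact SMulMemClass.smul_mem r hQF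
  star_mem' := by
    rintro x ⟨hx1, hx2⟩
    refine ⟨star_mem hx1, ?_⟩
    show star (x : M × C).1 - σ (star (x : M × C).2) * (1 - Q) ∈ F
    have h1 := star_mem hx2
    have hcs := hc _ (star_mem hx1)
    rw [star_sub, star_mul, star_sub, star_one, hQ.1, ← map_star] at h1
    have h2 : (1 - Q) * σ (star (x : M × C).2) = σ (star (x : M × C).2) * (1 - Q) := by
      rw [sub_mul, mul_sub, one_mul, mul_one, hcs]
    rw [h2] at h1
    exact h1

theorem fd_HH (D : NonUnitalStarSubalgebra ℂ M) (hD : Idl D) (σ : C →⋆ₐ[ℂ] M)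
    (F0 : StarSubalgebra ℂ C) (F : NonUnitalStarSubalgebra ℂ M) (Q : M) (hQF : Q ∈ F)
    (hQ : Pj Q) (hQf : ∀ f ∈ F, Q * f = f ∧ f * Q = f)
    (hc : ∀ c ∈ F0, σ c * Q = Q * σ c) (h0 : FiniteDimensional ℂ F0)
    (h1 : FiniteDimensional ℂ F) :
    FiniteDimensional ℂ (HH D hD σ F0 F Q hQF hQ hQf hc) := by
  let L : (HH D hD σ F0 F Q hQF hQ hQf hc) →ₗ[ℂ] F0 × F :=
    { toFun := fun g => (⟨((g : GG D hD σ) : M × C).2, g.2.1⟩,
        ⟨((g : GG D hD σ) : M × C).1 - σ ((g : GG D hD σ) : M × C).2 * (1 - Q), g.2.2⟩)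
      map_add' := by
        intro x y
        refine Prod.ext (Subtype.ext rfl) (Subtype.ext ?_)
        show (((x : GG D hD σ) : M × C).1 + ((y : GG D hD σ) : M × C).1) -
          σ (((x : GG D hD σ) : M × C).2 + ((y : GG D hD σ) : M × C).2) * (1 - Q) =
          (((x : GG D hD σ) : M × C).1 - σ ((x : GG D hD σ) : M × C).2 * (1 - Q)) +
          (((y : GG D hD σ) : M × C).1 - σ ((y : GG D hD σ) : M × C).2 * (1 - Q))
        rw [map_add, add_mul]; abel
      map_smul' := by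
        intro r x
        refine Prod.ext (Subtype.ext rfl) (Subtype.ext ?_)
        show (r • ((x : GG D hD σ) : M × C).1) -
          σ (r • ((x : GG D hD σ) : M × C).2) * (1 - Q) =
          r • (((x : GG D hD σ) : M × C).1 - σ ((x : GG D hD σ) : M × C).2 * (1 - Q))
        rw [map_smul, smul_sub, smul_mul_assoc] }
  refine FiniteDimensional.of_injective L ?_
  intro x y hxy
  have e1 : ((x : GG D hD σ) : M × C).2 = ((y : GG D hD σ) : M × C).2 :=
    congrArg (fun p : F0 × F => (p.1 : C)) hxy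
  have e2 : ((x : GG D hD σ) : M × C).1 - σ ((x : GG D hD σ) : M × C).2 * (1 - Q) =
      ((y : GG D hD σ) : M × C).1 - σ ((y : GG D hD σ) : M × C).2 * (1 - Q) :=
    congrArg (fun p : F0 × F => (p.2 : M)) hxy
  rw [e1, sub_left_inj] at e2
  exact Subtype.ext (Subtype.ext (Prod.ext e2 e1))

theorem norm_Pj {N : Type} [NonUnitalCStarAlgebra N] {p : N} (h : Pj p) : ‖p‖ ≤ 1 := by
  have h1 : ‖p‖ * ‖p‖ = ‖p‖ := by
    rw [← CStarRing.norm_star_mul_self, h.1, h.2]
  by_contra hcon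
  push Not at hcon
  nlinarith

theorem t (hMU1 : S_MU1) (hQPR : S_QPR) (hXAF : S_XAF) : S_GAF := by
  classical
  intro C M _ _ D hD hlaf hsep hAFC σ
  have hcl : IsClosed (GG D hD σ : Set (M × C)) := closed_GG D hD σ
  haveI := hcl
  refine ⟨GG D hD σ, inferInstance, (StarAlgHom.fst ℂ M C).comp (GG D hD σ).subtype,
    (StarAlgHom.snd ℂ M C).comp (GG D hD σ).subtype, ⟨?_, ?_⟩, ?_, ?_⟩
  · exact (sep_GG D hD σ hsep hAFC.1).separableSpace
  · intro Sf ε hε
    -- approximate the second coordinates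
    obtain ⟨F0, hF0, hF0S⟩ := hAFC.2 (Sf.image fun g : GG D hD σ => (g : M × C).2) (ε / 4) (by positivity)
    obtain ⟨m, b, e, hMU, hspan, hunit⟩ := hMU1 C F0.toNonUnitalStarSubalgebra hF0
    have h1F : (1 : C) ∈ F0.toNonUnitalStarSubalgebra := one_mem F0
    have hsum : ∑ x, e x x = 1 := by
      have := (hunit 1 h1F).1
      rwa [mul_one] at this
    set S : Finset M := Sf.image fun g : GG D hD σ => (g : M × C).1 - σ (g : M × C).2 with hS
    have hSD : ∀ d ∈ S, d ∈ D := by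
      intro d hd
      obtain ⟨g, _, rfl⟩ := Finset.mem_image.1 hd
      exact g.2
    obtain ⟨q, hq, hqd⟩ := hQPR C M D hD hlaf σ m b e hMU hsum S (ε / 8) hSD (by positivity)
    set Q : M := ∑ x, σ (e x (b x)) * q (b x) * σ (e (b x) x) with hQ
    obtain ⟨F, hFfd, hFD, hQF, hQP, hQf, hQe, hQz⟩ := hXAF C M D hD hlaf σ m b e hMU q hq Q hQ S
      (ε / 8) hSD (by positivity)
    -- commutation with all of F0
    have hcomm : ∀ c ∈ F0, σ c * Q = Q * σ c ∧ σ c * Q ∈ F := by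
      intro c hc
      have hc' : c ∈ spn e := (hspan c).1 hc
      unfold spn at hc'
      induction hc' using Submodule.span_induction with
      | mem x hx =>
        obtain ⟨p, rfl⟩ := hx
        exact hQe p.1 p.2
      | zero =>
        rw [map_zero, zero_mul, mul_zero]
        exact ⟨rfl, zero_mem F⟩
      | add x y hx hy ihx ihy =>
        have hx' := ihx ((hspan x).2 hx)
        have hy' := ihy ((hspan y).2 hy)
        rw [map_add, add_mul, mul_add, hx'.1, hy'.1]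
        refine ⟨rfl, ?_⟩
        rw [← hx'.1, ← hy'.1]
        exact add_mem hx'.2 hy'.2
      | smul a x hx ihx =>
        have hx' := ihx ((hspan x).2 hx)
        rw [map_smul, smul_mul_assoc, mul_smul_comm, hx'.1]
        refine ⟨rfl, ?_⟩
        rw [← hx'.1]
        exact SMulMemClass.smul_mem a hx'.2
    refine ⟨HH D hD σ F0 F Q hQF hQP hQf (fun c hc => (hcomm c hc).1),
      fd_HH D hD σ F0 F Q hQF hQP hQf (fun c hc => (hcomm c hc).1) hF0 hFfd, ?_⟩
    intro g hg
    obtain ⟨c', hc', hcc⟩ := hF0S _ (Finset.mem_image_of_mem _ hg)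
    have hdS : (g : M × C).1 - σ (g : M × C).2 ∈ S := Finset.mem_image_of_mem _ hg
    obtain ⟨hq1, hq2⟩ := hqd _ hdS
    obtain ⟨z, hz, hzd⟩ := hQz _ hdS
    set d : M := (g : M × C).1 - σ (g : M × C).2 with hd
    have hmem : (σ c' + z, c') ∈ GG D hD σ := by
      show σ c' + z - σ c' ∈ D
      rw [add_sub_cancel_left]
      exact hFD hz
    refine ⟨⟨(σ c' + z, c'), hmem⟩, ⟨hc', ?_⟩, ?_⟩
    · show σ c' + z - σ c' * (1 - Q) ∈ F
      have h3 : σ c' + z - σ c' * (1 - Q) = z + σ c' * Q := by noncomm_ring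
      rw [h3]
      exact add_mem hz (hcomm c' hc').2
    · have hdz : ‖d - z‖ < 3 * (ε / 8) := by
        have h4 : d - z = (d - Q * d) + Q * (d - d * Q) + (Q * d * Q - z) := by noncomm_ring
        rw [h4]
        have h5 : ‖Q * (d - d * Q)‖ ≤ ‖d - d * Q‖ := by
          calc ‖Q * (d - d * Q)‖ ≤ ‖Q‖ * ‖d - d * Q‖ := norm_mul_le _ _
            _ ≤ 1 * ‖d - d * Q‖ := by gcongr; exact norm_Pj hQP
            _ = ‖d - d * Q‖ := one_mul _
        calc ‖(d - Q * d) + Q * (d - d * Q) + (Q * d * Q - z)‖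
            ≤ ‖d - Q * d‖ + ‖Q * (d - d * Q)‖ + ‖Q * d * Q - z‖ := norm_add₃_le
          _ < 3 * (ε / 8) := by linarith
      show ‖(g : M × C) - (σ c' + z, c')‖ < ε
      rw [Prod.norm_def, max_lt_iff]
      constructor
      · show ‖(g : M × C).1 - (σ c' + z)‖ < ε
        have h6 : (g : M × C).1 - (σ c' + z) = (d - z) + σ ((g : M × C).2 - c') := by
          rw [hd, map_sub]; abel
        rw [h6]
        calc ‖(d - z) + σ ((g : M × C).2 - c')‖ ≤ ‖d - z‖ + ‖σ ((g : M × C).2 - c')‖ :=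
              norm_add_le _ _
          _ ≤ ‖d - z‖ + ‖(g : M × C).2 - c'‖ := by gcongr; exact norm_map_le σ _
          _ < ε := by linarith
      · show ‖(g : M × C).2 - c'‖ < ε
        linarith
  · intro m c hmc
    exact ⟨⟨(m, c), hmc⟩, rfl, rfl⟩
  · intro g h1 h2
    exact Subtype.ext (Prod.ext h1 h2)

end Pool.Agent.Helper43.AE.GAF
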