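import Pool.Agent.Helper53.AE.Defs
import Pool.Agent.Helper53.AE.GoalsA
import Pool.Agent.Helper53.AE.GoalsC

set_option autoImplicit false

open scoped ComplexOrder Topology
open Filter TopologicalSpace

namespace Pool.Agent.Helper43.AE.HDR

open Pool.Agent.Helper53.AE

variable {D₀ : Type} [NonUnitalCStarAlgebra D₀]

/-- Elements on which `w` is an approximate unit from both sides. -/
def HH (w : ℕ → D₀) (hs : ∀ n, star (w n) = w n) : NonUnitalStarSubalgebra ℂ D₀ where
  carrier := {d | Tendsto (fun n => w n * d) atTop (𝓝 d) ∧ Tendsto (fun n => d * w n) atTop (𝓝 d)}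
  zero_mem' := by
    constructor <;> simp
  add_mem' := by
    rintro a b ⟨ha1, ha2⟩ ⟨hb1, hb2⟩
    constructor
    · simpa only [mul_add] using ha1.add hb1
    · simpa only [add_mul] using ha2.add hb2
  mul_mem' := by
    rintro a b ⟨ha1, ha2⟩ ⟨hb1, hb2⟩
    constructor
    · simpa only [← mul_assoc] using ha1.mul_const b
    · simpa only [mul_assoc] using hb2.const_mul a
  smul_mem' := by
    rintro c a ⟨ha1, ha2⟩
    constructor
    · simpa only [mul_smul_comm] using ha1.const_smul c
    · simpa only [smul_mul_assoc] using ha2.const_smul c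
  star_mem' := by
    rintro a ⟨ha1, ha2⟩
    constructor
    · have := (continuous_star.tendsto a).comp ha2
      simpa only [Function.comp_def, star_mul, hs] using this
    · have := (continuous_star.tendsto a).comp ha1
      simpa only [Function.comp_def, star_mul, hs] using this

theorem mem_HH (w : ℕ → D₀) (hs : ∀ n, star (w n) = w n) (d : D₀) : d ∈ HH w hs ↔
    Tendsto (fun n => w n * d) atTop (𝓝 d) ∧ Tendsto (fun n => d * w n) atTop (𝓝 d) := Iff.rfl

theorem closed_aux (g : ℕ → D₀ → D₀) (hg : ∀ n d d', ‖g n d - g n d'‖ ≤ ‖d - d'‖) :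
    IsClosed {d | Tendsto (fun n => g n d) atTop (𝓝 d)} := by
  rw [← isSeqClosed_iff_isClosed]
  intro x d hx hd
  rw [Set.mem_setOf_eq, Metric.tendsto_atTop]
  intro ε hε
  obtain ⟨k, hk⟩ := (Metric.tendsto_atTop.1 hd (ε / 3) (by positivity))
  have h1 := hk k le_rfl
  obtain ⟨N, hN⟩ := Metric.tendsto_atTop.1 (hx k) (ε / 3) (by positivity)
  refine ⟨N, fun n hn => ?_⟩
  have h2 := hN n hn
  rw [dist_eq_norm] at h1 h2 ⊢
  have h3 := hg n d (x k)
  have h4 : g n d - d = (g n d - g n (x k)) + (g n (x k) - x k) + (x k - d) := by abel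
  rw [h4]
  have h5 : ‖d - x k‖ = ‖x k - d‖ := norm_sub_rev _ _
  calc ‖(g n d - g n (x k)) + (g n (x k) - x k) + (x k - d)‖
      ≤ ‖g n d - g n (x k)‖ + ‖g n (x k) - x k‖ + ‖x k - d‖ := norm_add₃_le
    _ < ε := by linarith

theorem closed_HH (w : ℕ → D₀) (hs : ∀ n, star (w n) = w n) (hw : ∀ n, ‖w n‖ ≤ 1) :
    IsClosed (HH w hs : Set D₀) := by
  have h1 := closed_aux (fun n d => w n * d) (fun n d d' => by
    rw [← mul_sub]
    calc ‖w n * (d - d')‖ ≤ ‖w n‖ * ‖d - d'‖ := norm_mul_le _ _
      _ ≤ 1 * ‖d - d'‖ := by gcongr; exact hw n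
      _ = ‖d - d'‖ := one_mul _)
  have h2 := closed_aux (fun n d => d * w n) (fun n d d' => by
    rw [← sub_mul]
    calc ‖(d - d') * w n‖ ≤ ‖d - d'‖ * ‖w n‖ := norm_mul_le _ _
      _ ≤ ‖d - d'‖ * 1 := by gcongr; exact hw n
      _ = ‖d - d'‖ := mul_one _)
  exact h1.inter h2

/-- Local finite dimensionality passes to the subalgebra as an algebra. -/
theorem laf_top (H : NonUnitalStarSubalgebra ℂ D₀) [hc : IsClosed (H : Set D₀)] (h : LAF H) :
    LAF (⊤ : NonUnitalStarSubalgebra ℂ H) := by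
  classical
  intro S ε _ hε
  obtain ⟨F, hF, hFH, hFS⟩ := h (S.image (fun x : H => (x : D₀))) ε (by
    intro x hx
    obtain ⟨y, _, rfl⟩ := Finset.mem_image.1 hx
    exact y.2) hε
  refine ⟨F.comap (NonUnitalStarSubalgebraClass.subtype H), ?_, le_top, ?_⟩
  · let L : (F.comap (NonUnitalStarSubalgebraClass.subtype H)) →ₗ[ℂ] F :=
      { toFun := fun x => ⟨((x : H) : D₀), x.2⟩
        map_add' := fun _ _ => rfl
        map_smul' := fun _ _ => rfl }
    have hL : Function.Injective L := by
      intro x y hxy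
      have : ((x : H) : D₀) = ((y : H) : D₀) := congrArg (fun z : F => (z : D₀)) hxy
      exact Subtype.ext (Subtype.ext this)
    exact FiniteDimensional.of_injective L hL
  · intro x hx
    obtain ⟨y, hy, hxy⟩ := hFS x (Finset.mem_image_of_mem _ hx)
    exact ⟨⟨y, hFH hy⟩, hy, hxy⟩

theorem t (hTBD : S_TBD) (hAUS : S_AUS) (hHER : S_HER) : S_HDR := by
  intro J O D₀ _ _ _ _ T hT hD
  obtain ⟨v, hv, hva⟩ := hAUS J
  have hb := hTBD J O D₀ T hT
  have hws : ∀ n, star (T (v n) 1) = T (v n) 1 := by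
    intro n
    rw [hT.2.1, (hv n).1, star_one]
  have h1 : ‖(1 : O)‖ ≤ 1 := by
    rcases subsingleton_or_nontrivial O with h | h
    · rw [Subsingleton.elim (1 : O) 0, norm_zero]; exact zero_le_one
    · exact (CStarRing.norm_one (E := O)).le
  have hwn : ∀ n, ‖T (v n) 1‖ ≤ 1 := by
    intro n
    calc ‖T (v n) 1‖ ≤ ‖v n‖ * ‖(1 : O)‖ := hb _ _
      _ ≤ 1 * 1 := mul_le_mul (hv n).2 h1 (norm_nonneg _) zero_le_one
      _ = 1 := one_mul _
  have hcl := closed_HH (fun n => T (v n) 1) hws hwn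
  have hmem : ∀ a x, T a x ∈ HH (fun n => T (v n) 1) hws := by
    intro a x
    have hk : ∀ (u : ℕ → J), Tendsto u atTop (𝓝 a) →
        Tendsto (fun n => T (u n) x) atTop (𝓝 (T a x)) := by
      intro u hu
      rw [tendsto_iff_norm_sub_tendsto_zero] at hu ⊢
      have h2 : Tendsto (fun n => ‖u n - a‖ * ‖x‖) atTop (𝓝 0) := by
        simpa using hu.mul_const ‖x‖
      refine squeeze_zero (fun _ => norm_nonneg _) (fun n => ?_) h2
      have h3 : T (u n) x - T a x = T (u n - a) x := by
        rw [map_sub, LinearMap.sub_apply]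
      rw [h3]
      exact hb _ _
    rw [mem_HH]
    constructor
    · have := hk _ (hva a).1
      refine this.congr fun n => ?_
      rw [hT.1, one_mul]
    · have := hk _ (hva a).2
      refine this.congr fun n => ?_
      rw [hT.1, mul_one]
  have hlaf : LAF (HH (fun n => T (v n) 1) hws) := by
    refine hHER D₀ ⊤ _ ?_ ?_ hcl le_top ?_
    · refine ⟨?_, fun m d _ => ⟨trivial, trivial⟩⟩
      have : ((⊤ : NonUnitalStarSubalgebra ℂ D₀) : Set D₀) = Set.univ := by
        ext x; simp
      rw [this]; exact isClosed_univ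
    · intro S ε _ hε
      obtain ⟨F, hF, hFS⟩ := hD.2 S ε hε
      refine ⟨F.toNonUnitalStarSubalgebra, ?_, le_top, ?_⟩
      · exact hF
      · intro x hx
        obtain ⟨y, hy, hxy⟩ := hFS x hx
        exact ⟨y, hy, hxy⟩
    · intro h hh d _ k hk
      rw [mem_HH] at hh hk ⊢
      constructor
      · have := (hh.1.mul_const d).mul_const k
        simpa only [mul_assoc] using this
      · have := hk.2.const_mul (h * d)
        simpa only [mul_assoc] using this
  have : IsClosed ((HH (fun n => T (v n) 1) hws : NonUnitalStarSubalgebra ℂ D₀) : Set D₀) := hcl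
  refine ⟨HH (fun n => T (v n) 1) hws, inferInstance, LinearMap.mk₂ ℂ
    (fun a x => ⟨T a x, hmem a x⟩) ?_ ?_ ?_ ?_, ?_, laf_top _ hlaf, ?_, ?_⟩
  · intro a b x
    apply Subtype.ext
    simp
  · intro c a x
    apply Subtype.ext
    simp
  · intro a x y
    apply Subtype.ext
    simp
  · intro c a x
    apply Subtype.ext
    simp
  · haveI : SeparableSpace D₀ := hD.1
    haveI : SecondCountableTopology D₀ := UniformSpace.secondCountable_of_separable D₀
    infer_instance
  · refine ⟨?_, ?_, ?_⟩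
    · intro a b x y
      apply Subtype.ext
      exact hT.1 a b x y
    · intro a x
      apply Subtype.ext
      exact hT.2.1 a x
    · intro a ha
      exact hT.2.2 a (congrArg (fun z : HH (fun n => T (v n) 1) hws => (z : D₀)) ha)
  · intro d ε hε
    obtain ⟨h1, h2⟩ := (mem_HH _ hws (d : D₀)).1 d.2
    obtain ⟨N1, hN1⟩ := Metric.tendsto_atTop.1 h1 ε hε
    obtain ⟨N2, hN2⟩ := Metric.tendsto_atTop.1 h2 ε hε
    refine ⟨v (max N1 N2), ?_, ?_⟩
    · have := hN1 _ (le_max_left N1 N2)
      rw [dist_eq_norm] at this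
      exact this
    · have := hN2 _ (le_max_right N1 N2)
      rw [dist_eq_norm] at this
      exact this

end Pool.Agent.Helper43.AE.HDR
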